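import Pool.Agent.H8.Jac1

namespace Pool.Agent.Results.MP_0cb83c_co.NoLoop
open MvPolynomial Set Pointwise Pool.Agent.H8.Jac

variable {K : Type} [Field K] {N : ℕ}

/-- `V` is Zariski closed and its vanishing ideal is a homogeneous prime ideal. -/
def IsCone (V : Set (Fin N → K)) : Prop :=
  V = zeroLocus K (vanishingIdeal K V) ∧ (vanishingIdeal K V).IsPrime ∧
    ∀ f ∈ vanishingIdeal K V, ∀ d, homogeneousComponent d f ∈ vanishingIdeal K V

/-- `E` is independent in the algebraic matroid of `V`: `I(V) ∩ K[E] = 0`. -/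
def Ind (V : Set (Fin N → K)) (E : Finset (Fin N)) : Prop :=
  ∀ f ∈ vanishingIdeal K V, f ∈ supported K (E : Set (Fin N)) → f = 0

/-- The dimension of `V`, as the rank of its algebraic matroid. -/
noncomputable def dim (V : Set (Fin N → K)) : ℕ := sSup {n | ∃ E, Ind V E ∧ E.card = n}

/-- The secant variety: the Zariski closure of `V + V`. -/
def Sec (V : Set (Fin N → K)) : Set (Fin N → K) := zeroLocus K (vanishingIdeal K (V + V))

noncomputable def p : Fin 8 → MvPolynomial (Fin 4) K :=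
  ![X 0, X 0 * X 1, X 0 * X 1 ^ 2, X 2, X 2 * X 3, X 2 * X 3 ^ 2, X 2 * X 3 ^ 3, X 2 * X 3 ^ 4]

noncomputable def q : Fin 8 → MvPolynomial (Fin 8) K :=
  ![X 0 + X 4, X 0 * X 1 + X 4 * X 5, X 0 * X 1 ^ 2 + X 4 * X 5 ^ 2, X 2 + X 6,
    X 2 * X 3 + X 6 * X 7, X 2 * X 3 ^ 2 + X 6 * X 7 ^ 2, X 2 * X 3 ^ 3 + X 6 * X 7 ^ 3,
    X 2 * X 3 ^ 4 + X 6 * X 7 ^ 4]

def Ok (E : Finset (Fin 8)) : Prop := (E ∩ {0, 1, 2}).card ≤ 2 ∧ (E ∩ {3, 4, 5, 6, 7}).card ≤ 2

instance : DecidablePred Ok := fun _ => by unfold Ok; infer_instance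

variable [CharZero K]

lemma dep {τ : Type} {r : Fin 8 → MvPolynomial τ K} {E : Finset (Fin 8)}
    (h : ∀ f ∈ supported K (E : Set (Fin 8)), aeval r f = 0 → f = 0) (f : MvPolynomial (Fin 8) K)
    (x : Fin 8 → K) (h1 : f ∈ supported K (E : Set (Fin 8))) (h2 : aeval r f = 0)
    (h3 : eval x f ≠ 0) : False := h3 (by rw [h f h1 h2, map_zero])

lemma hp (E : Finset (Fin 8)) :
    (∀ f ∈ supported K (E : Set (Fin 8)), aeval (p (K := K)) f = 0 → f = 0) ↔ Ok E := by
  refine ⟨fun h => ?_, fun h => jac p (fun i => by fin_cases i <;> simp [p]) _ fun g h1 h2 => ?_⟩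
  · have t : ∀ i j k : Fin 8, i < j → j < k → (k ≤ 2 ∨ 3 ≤ i) → i ∈ E → j ∈ E → k ∉ E :=
      fun i j k a b c hi hj hk => dep h (X j ^ (k - i : ℕ) - X i ^ (k - j : ℕ) * X k ^ (j - i : ℕ))
        (Pi.single j 1) (sub_mem (pow_mem (X_mem_supported.2 hj) _) (mul_mem (pow_mem
          (X_mem_supported.2 hi) _) (pow_mem (X_mem_supported.2 hk) _))) (by
          fin_cases i <;> fin_cases j <;> simp at a <;> fin_cases k <;> simp at b c <;>
            simp [p] <;> ring) (by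
          simp [a.ne, Nat.sub_ne_zero_of_lt (Fin.lt_def.1 b)])
    clear h
    revert E
    decide +kernel
  · have e : (0 ∉ E ∨ 1 ∉ E ∨ 2 ∉ E) ∧ ∃ i j : Fin 8, ∀ k, 3 ≤ k → k ≠ i → k ≠ j → k ∉ E := by
      clear h1
      revert E
      decide +kernel
    have x : ∀ j : Fin 4, algebraMap _ (FractionRing (MvPolynomial (Fin 4) K)) (X j : MvPolynomial (Fin 4) K) ≠ 0 := fun j =>
      (map_ne_zero_iff _ (IsFractionRing.injective _ _)).2 (X_ne_zero j)
    have a0 := h2 0
    have a1 := h2 1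
    have a2 := h2 2
    have a3 := h2 3
    simp [Fin.sum_univ_eight, p, pderiv_X, map_ofNat] at a0 a1 a2 a3
    have x0 := x 0
    have x1 := x 1
    have x2 := x 2
    have x3 := x 3
    generalize algebraMap _ (FractionRing (MvPolynomial (Fin 4) K)) (X 0 : MvPolynomial (Fin 4) K) = u,
      algebraMap _ (FractionRing (MvPolynomial (Fin 4) K)) (X 1 : MvPolynomial (Fin 4) K) = a,
      algebraMap _ (FractionRing (MvPolynomial (Fin 4) K)) (X 2 : MvPolynomial (Fin 4) K) = v,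
      algebraMap _ (FractionRing (MvPolynomial (Fin 4) K)) (X 3 : MvPolynomial (Fin 4) K) = s at *
    have A : g 0 = 0 ∧ g 1 = 0 ∧ g 2 = 0 := by
      rcases e.1 with e | e | e <;> have := h1 _ e <;> clear * - this a0 a1 x0 x1 <;> grind
    have B : g 3 = 0 ∧ g 4 = 0 ∧ g 5 = 0 ∧ g 6 = 0 ∧ g 7 = 0 := by
      obtain ⟨i, j, e⟩ := e.2
      have := fun k a b c => h1 k (e k a b c)
      have h3 := this 3
      have h4 := this 4
      have h5 := this 5
      have h6 := this 6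
      have h7 := this 7
      clear * - h3 h4 h5 h6 h7 a2 a3 x2 x3
      fin_cases i <;> fin_cases j <;> simp at h3 h4 h5 h6 h7 <;> grind
    simp [Fin.forall_fin_succ, A, B]

lemma hq (E : Finset (Fin 8)) :
    (∀ f ∈ supported K (E : Set (Fin 8)), aeval (q (K := K)) f = 0 → f = 0) ↔
      ¬ {3, 4, 5, 6, 7} ⊆ E := by
  refine ⟨fun h e => ?_, fun h => jac q (fun i => by fin_cases i <;> simp [q]) _ fun g h1 h2 => ?_⟩
  · have m : ∀ i ∈ ({3, 4, 5, 6, 7} : Finset (Fin 8)), X i ∈ supported K (E : Set (Fin 8)) :=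
      fun i hi => X_mem_supported.2 (e hi)
    refine dep h (X 3 * X 5 * X 7 + X 4 * X 5 * X 6 + X 4 * X 5 * X 6 - X 5 * X 5 * X 5 -
      X 3 * X 6 * X 6 - X 4 * X 4 * X 7) (Pi.single 5 1) ?_ (by simp [q]; ring) (by simp)
    repeat' first | apply sub_mem | apply add_mem | apply mul_mem | exact m _ (by decide)
  · have x : ∀ j : Fin 8, algebraMap _ (FractionRing (MvPolynomial (Fin 8) K)) (X j : MvPolynomial (Fin 8) K) ≠ 0 := fun j =>
      (map_ne_zero_iff _ (IsFractionRing.injective _ _)).2 (X_ne_zero j)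
    have y : ∀ i j : Fin 8, i ≠ j → algebraMap _ (FractionRing (MvPolynomial (Fin 8) K)) (X i : MvPolynomial (Fin 8) K) ≠
        algebraMap _ _ (X j : MvPolynomial (Fin 8) K) := fun i j h =>
      (IsFractionRing.injective _ _).ne (X_injective.ne h)
    have z : algebraMap _ (FractionRing (MvPolynomial (Fin 8) K)) (X 3 + X 7 : MvPolynomial (Fin 8) K) ≠ 0 ∧
        algebraMap _ (FractionRing (MvPolynomial (Fin 8) K))
          (X 3 ^ 2 + X 7 ^ 2 + X 3 * X 7 + X 3 * X 7 + X 3 * X 7 + X 3 * X 7 : MvPolynomial (Fin 8) K) ≠ 0 := by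
      constructor <;> refine (map_ne_zero_iff _ (IsFractionRing.injective _ _)).2 fun h => ?_ <;>
        simpa using congrArg (eval (Pi.single 3 1)) h
    have a0 := h2 0
    have a1 := h2 1
    have a2 := h2 2
    have a3 := h2 3
    have a4 := h2 4
    have a6 := h2 6
    have a7 := h2 7
    simp [Fin.sum_univ_eight, q, pderiv_X, map_ofNat] at a0 a1 a2 a3 a4 a6 a7
    simp only [map_add, map_mul, map_pow] at z
    have x0 := x 0
    have x2 := x 2
    have x3 := x 3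
    have x6 := x 6
    have x7 := x 7
    have y1 := y 1 5 (by decide)
    have y2 := y 3 7 (by decide)
    generalize algebraMap _ (FractionRing (MvPolynomial (Fin 8) K)) (X 0 : MvPolynomial (Fin 8) K) = u,
      algebraMap _ (FractionRing (MvPolynomial (Fin 8) K)) (X 1 : MvPolynomial (Fin 8) K) = a,
      algebraMap _ (FractionRing (MvPolynomial (Fin 8) K)) (X 2 : MvPolynomial (Fin 8) K) = v,
      algebraMap _ (FractionRing (MvPolynomial (Fin 8) K)) (X 3 : MvPolynomial (Fin 8) K) = s,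
      algebraMap _ (FractionRing (MvPolynomial (Fin 8) K)) (X 5 : MvPolynomial (Fin 8) K) = b,
      algebraMap _ (FractionRing (MvPolynomial (Fin 8) K)) (X 6 : MvPolynomial (Fin 8) K) = w,
      algebraMap _ (FractionRing (MvPolynomial (Fin 8) K)) (X 7 : MvPolynomial (Fin 8) K) = t at *
    have A : g 0 = 0 ∧ g 1 = 0 ∧ g 2 = 0 := by
      clear * - a0 a1 a4 x0 y1
      grind
    have B : g 3 = g 7 * (s * t) ^ 2 ∧ g 4 = -2 * g 7 * (s * t) * (s + t) ∧
        g 5 = g 7 * (s ^ 2 + t ^ 2 + 4 * s * t) ∧ g 6 = -2 * g 7 * (s + t) := by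
      clear * - a2 a3 a6 a7 x2 x6 y2
      grind
    have : g 7 = 0 := by
      have : g 3 = 0 ∨ g 4 = 0 ∨ g 5 = 0 ∨ g 6 = 0 ∨ g 7 = 0 := by
        simp only [Finset.insert_subset_iff, Finset.singleton_subset_iff, not_and_or] at h
        exact h.imp (h1 _) (.imp (h1 _) (.imp (h1 _) (.imp (h1 _) (h1 _))))
      clear * - this B z x3 x7
      grind
    simp [Fin.forall_fin_succ, A, B, this]

theorem result (K : Type) [Field K] [IsAlgClosed K] [CharZero K] :
    ∃ (N : ℕ) (V : Set (Fin N → K)), IsCone V ∧ dim (Sec V) < min (2 * dim V) N ∧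
      (∀ E, Ind (Sec V) E ↔ ∃ I J, Ind V I ∧ Ind V J ∧ E = I ∪ J) ∧
      (∀ i, ∃ E, Ind V E ∧ i ∈ E) ∧ ∀ i, ∃ E, Maximal (Ind V) E ∧ i ∉ E := by
  let P := range fun (t : Fin 4 → K) i => eval t (p i)
  have u : ∀ Q : Set (Fin 8 → K),
      vanishingIdeal K (zeroLocus K (vanishingIdeal K Q)) = vanishingIdeal K Q := fun Q =>
    zeroLocus_vanishingIdeal_galoisConnection.u_l_u_eq_u Q
  have h1 : Ind (zeroLocus K (vanishingIdeal K P)) = Ok := funext fun E => propext (by
    simp only [Ind, u, P, van, ← hp (K := K)]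
    exact forall_congr' fun f => imp.swap)
  have e : P + P = range fun (t : Fin 8 → K) i => eval t (q i) := by
    ext x
    constructor
    · rintro ⟨_, ⟨s, rfl⟩, _, ⟨t, rfl⟩, rfl⟩
      exact ⟨![s 0, s 1, s 2, s 3, t 0, t 1, t 2, t 3], funext fun i => by
        fin_cases i <;> simp [p, q]⟩
    · rintro ⟨t, rfl⟩
      exact ⟨_, ⟨![t 0, t 1, t 2, t 3], rfl⟩, _, ⟨![t 4, t 5, t 6, t 7], rfl⟩, funext fun i => by
        fin_cases i <;> simp [p, q]⟩
  have h2 : Ind (Sec (zeroLocus K (vanishingIdeal K P))) = fun E => ¬ {3, 4, 5, 6, 7} ⊆ E :=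
    funext fun E => propext (by
      rw [Ind, Sec, u, van_add, add_comm, van_add, e]
      simp only [van, ← hq (K := K)]
      exact forall_congr' fun f => imp.swap)
  have b : ∀ R : Finset (Fin 8) → Prop, BddAbove {n | ∃ E, R E ∧ E.card = n} := fun R =>
    ⟨8, by rintro _ ⟨E, -, rfl⟩; simpa using E.card_le_univ⟩
  refine ⟨8, zeroLocus K (vanishingIdeal K P), ⟨by rw [u], ?_, fun f hf d => ?_⟩, ?_, ?_⟩
  · rw [u, show vanishingIdeal K P = RingHom.ker (aeval p) from Ideal.ext fun f => van p f]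
    exact RingHom.ker_isPrime _
  · rw [u] at hf ⊢
    refine hom ?_ hf d
    rintro a _ ⟨t, rfl⟩
    exact ⟨![a * t 0, t 1, a * t 2, t 3], funext fun i => by fin_cases i <;> simp [p, mul_assoc]⟩
  · simp only [dim, h1, h2]
    have : 4 ≤ sSup {n | ∃ E, Ok E ∧ E.card = n} := le_csSup (b _) ⟨{0, 1, 3, 4}, by decide, rfl⟩
    have : sSup {n | ∃ E : Finset (Fin 8), ¬ {3, 4, 5, 6, 7} ⊆ E ∧ E.card = n} ≤ 7 :=
      csSup_le' (by rintro _ ⟨E, h, rfl⟩; revert E; decide +kernel)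
    omega
  · rw [h1, h2]
    refine ⟨fun E => ⟨fun h => ?_, ?_⟩, fun i => ⟨{i}, by revert i; decide, by simp⟩, fun i => ?_⟩
    · have : ∃ S ∈ ({{0, 1, 3, 4}, {0, 1, 3, 5}, {0, 1, 4, 5}} : Finset (Finset (Fin 8))),
          Ok (E ∩ S) ∧ Ok (E \ S) := by
        revert E
        decide +kernel
      obtain ⟨S, -, a, b⟩ := this
      exact ⟨_, _, a, b, by rw [Finset.union_comm, Finset.sdiff_union_inter]⟩
    · rintro ⟨I, J, hI, hJ, rfl⟩ h
      have := Finset.card_le_card (Finset.subset_inter h subset_rfl)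
      rw [Finset.union_inter_distrib_right] at this
      have := this.trans (Finset.card_union_le _ _)
      have := hI.2
      have := hJ.2
      simp at *
      omega
    · exact ⟨![{1, 2, 3, 4}, {0, 2, 3, 4}, {0, 1, 3, 4}, {0, 1, 4, 5}, {0, 1, 3, 5}, {0, 1, 3, 4},
        {0, 1, 3, 4}, {0, 1, 3, 4}] i, by unfold Maximal; revert i; decide +kernel⟩

end Pool.Agent.Results.MP_0cb83c_co.NoLoop
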